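import Pool.Agent.CAR.Final

/-!
# MP_dce269_lc: compact action realizations

There is an aperiodic universal countable Borel equivalence relation which is not Borel isomorphic
to the orbit equivalence relation of any continuous action of a countable group on a compact
Polish space.
-/

set_option autoImplicit false

namespace Pool.Agent.Results.MP_dce269_lc.NoCompactRealization

/-- `E` is a countable Borel equivalence relation. -/
structure IsCBER {X : Type} [MeasurableSpace X] (E : X → X → Prop) : Prop where
  equivalence : Equivalence E
  borel : MeasurableSet {p : X × X | E p.1 p.2}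
  countable : ∀ x, {y | E x y}.Countable

/-- All classes are infinite. -/
def Aperiodic {X : Type} (E : X → X → Prop) : Prop := ∀ x, {y | E x y}.Infinite

/-- There is a Borel reduction of `F` to `E`. -/
def BorelReduces {X Y : Type} [MeasurableSpace X] [MeasurableSpace Y] (F : Y → Y → Prop)
    (E : X → X → Prop) : Prop :=
  ∃ f : Y → X, Measurable f ∧ ∀ y y', F y y' ↔ E (f y) (f y')

/-- Every countable Borel equivalence relation on a standard Borel space Borel reduces to `E`. -/
def Universal {X : Type} [MeasurableSpace X] (E : X → X → Prop) : Prop :=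
  ∀ (Y : Type) [MeasurableSpace Y] [StandardBorelSpace Y] (F : Y → Y → Prop),
    IsCBER F → BorelReduces F E

/-- There is a Borel bijection that takes `E` to `F`. -/
def BorelIsomorphic {X Y : Type} [MeasurableSpace X] [MeasurableSpace Y] (E : X → X → Prop)
    (F : Y → Y → Prop) : Prop :=
  ∃ f : X → Y, Measurable f ∧ Function.Bijective f ∧ ∀ x x', E x x' ↔ F (f x) (f x')

/-- `E` has a compact action realization: it is Borel isomorphic to the orbit equivalence relation
of a continuous action of a countable group on a compact Polish space. -/
def HasCompactActionRealization {X : Type} [MeasurableSpace X] (E : X → X → Prop) : Prop :=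
  ∃ (Y : Type) (_ : TopologicalSpace Y) (_ : PolishSpace Y) (_ : CompactSpace Y)
    (_ : MeasurableSpace Y) (_ : BorelSpace Y) (Γ : Type) (_ : Group Γ) (_ : Countable Γ)
    (_ : MulAction Γ Y), (∀ g : Γ, Continuous fun y : Y => g • y) ∧
      BorelIsomorphic E fun y y' : Y => ∃ g : Γ, g • y = y'

/-- There is an aperiodic universal countable Borel equivalence relation on a standard Borel space
without a compact action realization. -/
theorem result : ∃ (X : Type) (_ : MeasurableSpace X) (_ : StandardBorelSpace X)
    (E : X → X → Prop), IsCBER E ∧ Aperiodic E ∧ Universal E ∧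
      ¬ HasCompactActionRealization E := by
  by_contra hno
  apply Pool.CAR.final
  intro X i1 i2 E hE hm hc hi hu
  have hreal : HasCompactActionRealization E := by
    by_contra h
    exact hno ⟨X, i1, i2, E, ⟨hE, hm, hc⟩, hi,
      fun Y _ _ F hF => hu Y F hF.equivalence hF.borel hF.countable, h⟩
  obtain ⟨Y, j1, j2, j3, j4, j5, Γ, k1, k2, k3, hcont, f, hf, hbij, hfE⟩ := hreal
  have hemb : MeasurableEmbedding f := hf.measurableEmbedding hbij.1
  refine ⟨Γ, k1, k2, Y, j1, j4, j5, j3, inferInstance, k3, hcont,
    ⟨Equiv.ofBijective f hbij, hf, ?_⟩, hfE⟩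
  intro s hs
  have h1 : (Equiv.ofBijective f hbij).symm ⁻¹' s = f '' s :=
    (Equiv.image_eq_preimage_symm (Equiv.ofBijective f hbij) s).symm
  rw [h1]
  exact hemb.measurableSet_image.2 hs

end Pool.Agent.Results.MP_dce269_lc.NoCompactRealization
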